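import Mathlib

/-!
# Treewidth and the r-dynamic chromatic number
-/

namespace Pool.Agent.Results.MP_96dc1b_co.TreewidthDynamic

/-- A tree decomposition of `G` with index type `ι`. -/
structure TreeDecomp {V : Type*} (ι : Type*) (G : SimpleGraph V) where
  /-- the underlying tree -/
  tree : SimpleGraph ι
  isTree : tree.IsTree
  /-- the bags -/
  bag : ι → Set V
  mem_bag : ∀ v, ∃ i, v ∈ bag i
  adj_bag : ∀ u v, G.Adj u v → ∃ i, u ∈ bag i ∧ v ∈ bag i
  connected : ∀ v, (tree.induce {i | v ∈ bag i}).Preconnected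

/-- The treewidth of a finite graph: the least `w` such that some tree decomposition has all bags
of size at most `w + 1`. -/
noncomputable def treewidth {V : Type*} (G : SimpleGraph V) : ℕ :=
  sInf {w : ℕ | ∃ (ι : Type) (_ : Finite ι) (D : TreeDecomp ι G), ∀ i, (D.bag i).ncard ≤ w + 1}

/-- `φ` is an `r`-dynamic `k`-colouring of `G`. -/
def IsDynamic {V : Type*} (G : SimpleGraph V) (r : ℕ) {k : ℕ} (φ : V → Fin k) : Prop :=
  (∀ u v, G.Adj u v → φ u ≠ φ v) ∧
    ∀ v, min r (G.neighborSet v).ncard ≤ (φ '' G.neighborSet v).ncard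

/-- The `r`-dynamic chromatic number. -/
noncomputable def dynChromaticNumber {V : Type*} (G : SimpleGraph V) (r : ℕ) : ℕ :=
  sInf {k : ℕ | ∃ φ : V → Fin k, IsDynamic G r φ}

/-- The example: `g` groups of `s` points, and for every pair `(b, c)` of groups a vertex adjacent
to all points of the groups `b` and `c`. -/
def Ex (g s : ℕ) : SimpleGraph ((Fin g × Fin s) ⊕ (Fin g × Fin g)) where
  Adj u v := (∃ p q, u = Sum.inl p ∧ v = Sum.inr q ∧ (p.1 = q.1 ∨ p.1 = q.2)) ∨
    (∃ p q, v = Sum.inl p ∧ u = Sum.inr q ∧ (p.1 = q.1 ∨ p.1 = q.2))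
  symm := ⟨fun _ _ h => h.symm⟩
  loopless := ⟨by
    rintro u (⟨p, q, h1, h2, -⟩ | ⟨p, q, h1, h2, -⟩) <;> rw [h1] at h2 <;> cases h2⟩

lemma treewidth_le (g s : ℕ) : treewidth (Ex g s) ≤ g * g := by
  classical
  refine Nat.sInf_le ⟨Option (Fin g × Fin s), inferInstance, ?_⟩
  let all : Set ((Fin g × Fin s) ⊕ (Fin g × Fin g)) := Set.range Sum.inr
  have hall : all.ncard = g * g := by
    rw [show all = Sum.inr '' Set.univ from Set.image_univ.symm, Set.ncard_image_of_injective _ Sum.inr_injective, Set.ncard_univ,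
      Nat.card_prod]
    simp
  refine ⟨{
    tree := SimpleGraph.starGraph none
    isTree := SimpleGraph.isTree_starGraph none
    bag := fun o => o.elim all (fun p => insert (Sum.inl p) all)
    mem_bag := ?_
    adj_bag := ?_
    connected := ?_ }, ?_⟩
  · rintro (p | q)
    · exact ⟨some p, by simp⟩
    · exact ⟨none, by simp [all]⟩
  · rintro u v (⟨p, q, rfl, rfl, -⟩ | ⟨p, q, rfl, rfl, -⟩)
    · exact ⟨some p, by simp, by simp [all]⟩
    · exact ⟨some p, by simp [all], by simp⟩
  · rintro (p | q)
    · -- a point occurs in exactly one bag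
      have hs : ∀ i : Option (Fin g × Fin s),
          (Sum.inl p : (Fin g × Fin s) ⊕ (Fin g × Fin g)) ∈
            (i.elim all (fun p => insert (Sum.inl p) all) : Set _) → i = some p := by
        rintro (_ | p') h
        · simp [all] at h
        · simp only [Option.elim_some, Set.mem_insert_iff, Sum.inl.injEq, all, Set.mem_range,
            reduceCtorEq, exists_false, or_false] at h
          rw [h]
      rintro ⟨i, hi⟩ ⟨j, hj⟩
      have h1 := hs i hi
      have h2 := hs j hj
      subst h1
      subst h2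
      exact SimpleGraph.Reachable.refl _
    · -- the other vertices occur in all bags
      have hmem : ∀ i : Option (Fin g × Fin s),
          (Sum.inr q : (Fin g × Fin s) ⊕ (Fin g × Fin g)) ∈
            (i.elim all (fun p => insert (Sum.inl p) all) : Set _) := by
        rintro (_ | p') <;> simp [all]
      have key : ∀ i : {i : Option (Fin g × Fin s) |
          (Sum.inr q : (Fin g × Fin s) ⊕ (Fin g × Fin g)) ∈
            (i.elim all (fun p => insert (Sum.inl p) all) : Set _)},
          ((SimpleGraph.starGraph (none : Option (Fin g × Fin s))).induce _).Reachable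
            ⟨none, hmem none⟩ i := by
        rintro ⟨i, hi⟩
        by_cases h : i = none
        · subst h
          exact SimpleGraph.Reachable.refl _
        · apply SimpleGraph.Adj.reachable
          rw [SimpleGraph.comap_adj]
          exact SimpleGraph.starGraph_center_adj (fun h' => h h'.symm)
      intro i j
      exact (key i).symm.trans (key j)
  · rintro (_ | p)
    · simp only [Option.elim_none, hall]
      omega
    · simp only [Option.elim_some]
      refine le_trans (Set.ncard_insert_le _ _) ?_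
      rw [hall]

lemma neighborSet_inr_ncard (g s : ℕ) (q : Fin g × Fin g) :
    ((Ex g s).neighborSet (Sum.inr q)).ncard ≤ 2 * s := by
  classical
  have hsub : (Ex g s).neighborSet (Sum.inr q) ⊆
      ((fun x : Fin s => (Sum.inl (q.1, x) : (Fin g × Fin s) ⊕ (Fin g × Fin g))) '' Set.univ) ∪
      ((fun x : Fin s => (Sum.inl (q.2, x) : (Fin g × Fin s) ⊕ (Fin g × Fin g))) '' Set.univ) := by
    rintro v (⟨p', q', h1, h2, h3⟩ | ⟨p', q', h1, h2, h3⟩)
    · cases h1
    · cases h2
      rcases h3 with h3 | h3
      · left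
        exact ⟨p'.2, trivial, by rw [h1, ← h3]⟩
      · right
        exact ⟨p'.2, trivial, by rw [h1, ← h3]⟩
  refine le_trans (Set.ncard_le_ncard hsub (Set.toFinite _)) ?_
  refine le_trans (Set.ncard_union_le _ _) ?_
  have h1 : ∀ a : Fin g, ((fun x : Fin s =>
      (Sum.inl (a, x) : (Fin g × Fin s) ⊕ (Fin g × Fin g))) '' Set.univ).ncard ≤ s := by
    intro a
    refine le_trans (Set.ncard_image_le (Set.toFinite _)) ?_
    simp [Set.ncard_univ]
  have := h1 q.1
  have := h1 q.2
  omega

lemma le_dynChromaticNumber (g s : ℕ) : g * s ≤ dynChromaticNumber (Ex g s) (2 * s) := by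
  classical
  unfold dynChromaticNumber
  refine le_csInf ?_ ?_
  · -- colouring all vertices differently
    let V := (Fin g × Fin s) ⊕ (Fin g × Fin g)
    let e := Fintype.equivFin V
    refine ⟨Fintype.card V, fun v => e v, ?_, ?_⟩
    · intro u v huv h
      exact huv.ne (e.injective h)
    · intro v
      rw [Set.ncard_image_of_injective _ e.injective]
      exact min_le_right _ _
  · rintro k ⟨φ, hφ⟩
    have hinj : Function.Injective (fun p : Fin g × Fin s => φ (Sum.inl p)) := by
      intro p p' hpp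
      have h1 := hφ.2 (Sum.inr (p.1, p'.1))
      rw [min_eq_right (neighborSet_inr_ncard g s _)] at h1
      have h2 := Set.injOn_of_ncard_image_eq (f := φ) (s := (Ex g s).neighborSet (Sum.inr (p.1, p'.1)))
        (le_antisymm (Set.ncard_image_le (Set.toFinite _)) h1) (Set.toFinite _)
      have h3 : (Sum.inl p : (Fin g × Fin s) ⊕ (Fin g × Fin g)) ∈
          (Ex g s).neighborSet (Sum.inr (p.1, p'.1)) :=
        Or.inr ⟨p, (p.1, p'.1), rfl, rfl, Or.inl rfl⟩
      have h4 : (Sum.inl p' : (Fin g × Fin s) ⊕ (Fin g × Fin g)) ∈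
          (Ex g s).neighborSet (Sum.inr (p.1, p'.1)) :=
        Or.inr ⟨p', (p.1, p'.1), rfl, rfl, Or.inr rfl⟩
      exact Sum.inl_injective (h2 h3 h4 hpp)
    have := Fintype.card_le_of_injective _ hinj
    simpa [Fintype.card_prod] using this

/-- There is no constant `C` with `χ_r(G) ≤ C (tw(G) + r)` for all graphs `G` and all `r ≥ 1`. -/
theorem result : ∀ C : ℝ, ∃ (V : Type) (_ : Finite V) (G : SimpleGraph V) (r : ℕ), 1 ≤ r ∧
    C * ((treewidth G : ℝ) + (r : ℝ)) < (dynChromaticNumber G r : ℝ) := by
  intro C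
  obtain ⟨g, hg⟩ := exists_nat_gt (max (3 * C) 1)
  have hg1 : 3 * C < g := lt_of_le_of_lt (le_max_left _ _) hg
  have hg2 : (1 : ℝ) < g := lt_of_le_of_lt (le_max_right _ _) hg
  have hg3 : 1 < g := by exact_mod_cast hg2
  have hgg : 0 < g * g := by positivity
  refine ⟨(Fin g × Fin (g * g)) ⊕ (Fin g × Fin g), inferInstance, Ex g (g * g), 2 * (g * g),
    by omega, ?_⟩
  have h1 : (treewidth (Ex g (g * g)) : ℝ) ≤ g * g := by
    exact_mod_cast treewidth_le g (g * g)
  have h2 : ((g : ℝ) * (g * g)) ≤ (dynChromaticNumber (Ex g (g * g)) (2 * (g * g)) : ℝ) := by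
    exact_mod_cast le_dynChromaticNumber g (g * g)
  refine lt_of_lt_of_le ?_ h2
  have hgpos : (0 : ℝ) < g * g := by positivity
  have htw : (0 : ℝ) ≤ (treewidth (Ex g (g * g)) : ℝ) := Nat.cast_nonneg _
  push_cast
  rcases le_or_gt C 0 with hC | hC
  · have : C * ((treewidth (Ex g (g * g)) : ℝ) + 2 * (g * g)) ≤ 0 :=
      mul_nonpos_of_nonpos_of_nonneg hC (by positivity)
    have : (0 : ℝ) < g * (g * g) := by positivity
    linarith
  · calc C * ((treewidth (Ex g (g * g)) : ℝ) + 2 * (g * g))
        ≤ C * ((g * g) + 2 * (g * g)) := by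
          apply mul_le_mul_of_nonneg_left _ hC.le
          linarith
      _ = (3 * C) * (g * g) := by ring
      _ < g * (g * g) := by
          apply mul_lt_mul_of_pos_right hg1 hgpos

end Pool.Agent.Results.MP_96dc1b_co.TreewidthDynamic
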